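import Mathlib

-- part Pool.Agent.Lib.MP_056111_lc.Local
section

/-!
Local part of the construction of two strongly Haar meager subsets of `ℕ → ℤ` whose union is
not strongly Haar meager.  To each closed set `C` we attach two subsets `H1 C`, `H2 C` of `C`:
`H1 C` is meager in the compact set `D1`, `H2 C` is meager in the compact set `D2`, and
`H1 C ∪ H2 C` is comeager in `C` when `C` is compact.
-/

open Set Topology Filter

namespace Pool.Agent.Lib.MP_056111_lc

/-- The group `ℤ^ω`. -/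
abbrev G : Type := ℕ → ℤ

/-- `x` and `y` agree on the first `m` coordinates. -/
def Ag (m : ℕ) (x y : G) : Prop := ∀ i < m, x i = y i

lemma Ag.refl (m : ℕ) (x : G) : Ag m x x := fun _ _ => rfl

lemma Ag.mono {m n : ℕ} {x y : G} (h : Ag n x y) (hmn : m ≤ n) : Ag m x y :=
  fun i hi => h i (lt_of_lt_of_le hi hmn)

lemma Ag.trans {m : ℕ} {x y z : G} (h : Ag m x y) (h' : Ag m y z) : Ag m x z :=
  fun i hi => (h i hi).trans (h' i hi)

lemma Ag.symm {m : ℕ} {x y : G} (h : Ag m x y) : Ag m y x :=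
  fun i hi => (h i hi).symm

lemma isOpen_Ag (m : ℕ) (x : G) : IsOpen {y | Ag m y x} :=
  PiNat.isOpen_cylinder (fun _ => ℤ) x m

lemma mem_nhds_iff_Ag {s : Set G} {x : G} : s ∈ 𝓝 x ↔ ∃ m, ∀ y, Ag m y x → y ∈ s := by
  constructor
  · intro hs
    obtain ⟨t, ⟨z, n, rfl⟩, hxt, hts⟩ :=
      (PiNat.isTopologicalBasis_cylinders (fun _ : ℕ => ℤ)).mem_nhds_iff.1 hs
    refine ⟨n, fun y hy => hts ?_⟩
    intro i hi
    rw [hy i hi]
    exact hxt i hi
  · rintro ⟨m, hm⟩
    exact mem_of_superset ((isOpen_Ag m x).mem_nhds (Ag.refl m x)) hm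

lemma mem_closure_iff_Ag {s : Set G} {x : G} : x ∈ closure s ↔ ∀ m, ∃ y ∈ s, Ag m y x := by
  rw [mem_closure_iff_nhds]
  constructor
  · intro h m
    obtain ⟨y, hy, hys⟩ := h _ ((isOpen_Ag m x).mem_nhds (Ag.refl m x))
    exact ⟨y, hys, hy⟩
  · intro h t ht
    obtain ⟨m, hm⟩ := mem_nhds_iff_Ag.1 ht
    obtain ⟨y, hys, hy⟩ := h m
    exact ⟨y, hm y hy, hys⟩

lemma isClosed_of_Ag {s : Set G} (h : ∀ x, (∀ m, ∃ y ∈ s, Ag m y x) → x ∈ s) : IsClosed s := by
  rw [← closure_subset_iff_isClosed]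
  intro x hx
  exact h x (mem_closure_iff_Ag.1 hx)

lemma IsClosed.mem_of_Ag {s : Set G} (hs : IsClosed s) {x : G}
    (h : ∀ m, ∃ y ∈ s, Ag m y x) : x ∈ s :=
  hs.closure_subset (mem_closure_iff_Ag.2 h)

/-- The relative boundary of `F` inside `D`. -/
def bd (D F : Set G) : Set D := {x | x.1 ∈ F ∧ ¬ ∃ m, ∀ v ∈ D, Ag m v x.1 → v ∈ F}

lemma bd_meagre (D : Set G) {F : Set G} (hF : IsClosed F) : IsMeagre (bd D F) := by
  have hc : IsClosed ((↑) ⁻¹' F : Set D) := hF.preimage continuous_subtype_val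
  have h1 : IsNowhereDense (frontier ((↑) ⁻¹' F : Set D)) := by
    rw [isClosed_frontier.isNowhereDense_iff]
    exact interior_frontier hc
  refine (h1.mono ?_).isMeagre
  rintro x ⟨hx, hx'⟩
  rw [hc.frontier_eq]
  refine ⟨hx, fun hi => hx' ?_⟩
  rw [mem_interior_iff_mem_nhds, nhds_subtype_eq_comap, mem_comap] at hi
  obtain ⟨t, ht, hts⟩ := hi
  obtain ⟨m, hm⟩ := mem_nhds_iff_Ag.1 ht
  exact ⟨m, fun v hv hag => hts (a := ⟨v, hv⟩) (hm v hag)⟩

/-- Unit vector at the even coordinate `2 j`. -/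
def dl (j : ℕ) : G := fun i => if i = 2 * j then 1 else 0

/-- Unit vector at the odd coordinate `2 n + 1`. -/
def ep (n : ℕ) : G := fun i => if i = 2 * n + 1 then 1 else 0

/-- `x (2 j)` is minimal among the points of `C` with the same history. -/
def XMin (C : Set G) (j : ℕ) (x : G) : Prop := ∀ y ∈ C, Ag (2 * j) y x → x (2 * j) ≤ y (2 * j)

/-- Near `x + dl j`, subtracting `dl j` maps `C` into `C`. -/
def P (C : Set G) (j : ℕ) (x : G) : Prop := ∃ m, ∀ y ∈ C, Ag m y (x + dl j) → y - dl j ∈ C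

def H1 (C : Set G) : Set G :=
  {x | x ∈ C ∧ (∀ N, ∃ j, N ≤ j ∧ XMin C j x ∧ P C j x) ∧ ∀ N, ∃ n, N ≤ n ∧ x + ep n ∉ C}

def H2 (C : Set G) : Set G :=
  {x | x ∈ C ∧ (∀ N, ∃ j, N ≤ j ∧ XMin C j x ∧ ¬ P C j x) ∧
    ∀ j, x - dl j ∈ C → P C j (x - dl j)}

def D1 : Set G :=
  {x | (∀ j, x (2 * j) = 0 ∨ x (2 * j) = 1) ∧
    ∀ n, 0 ≤ x (2 * n + 1) ∧ x (2 * n + 1) ≤ ∑ i ∈ Finset.range (n + 1), x (2 * i)}

def D2 : Set G := {x | (∀ j, x (2 * j) = 0 ∨ x (2 * j) = 1) ∧ ∀ n, x (2 * n + 1) = 0}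

lemma D2_subset_D1 : D2 ⊆ D1 := by
  rintro x ⟨h1, h2⟩
  refine ⟨h1, fun n => ⟨(h2 n).ge, ?_⟩⟩
  rw [h2 n]
  exact Finset.sum_nonneg fun i _ => by rcases h1 i with h | h <;> simp [h]

lemma D1_bound {x : G} (hx : x ∈ D1) (n : ℕ) : 0 ≤ x n ∧ x n ≤ n + 1 := by
  obtain ⟨h1, h2⟩ := hx
  rcases Nat.even_or_odd' n with ⟨k, rfl | rfl⟩
  · rcases h1 k with h | h <;> rw [h] <;> constructor <;> push_cast <;> omega
  · refine ⟨(h2 k).1, (h2 k).2.trans ?_⟩
    have : ∑ i ∈ Finset.range (k + 1), x (2 * i) ≤ ∑ _i ∈ Finset.range (k + 1), (1 : ℤ) :=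
      Finset.sum_le_sum fun i _ => by rcases h1 i with h | h <;> simp [h]
    simp at this
    push_cast
    omega

lemma zero_mem_D2 : (0 : G) ∈ D2 := ⟨fun _ => Or.inl rfl, fun _ => rfl⟩

lemma isClosed_D1 : IsClosed D1 := by
  refine isClosed_of_Ag fun x hx => ⟨fun j => ?_, fun n => ?_⟩
  · obtain ⟨y, hy, hag⟩ := hx (2 * j + 1)
    rw [← hag (2 * j) (by omega)]
    exact hy.1 j
  · obtain ⟨y, hy, hag⟩ := hx (2 * n + 2)
    have : ∑ i ∈ Finset.range (n + 1), x (2 * i) = ∑ i ∈ Finset.range (n + 1), y (2 * i) :=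
      Finset.sum_congr rfl fun i hi => by
        rw [Finset.mem_range] at hi
        exact (hag (2 * i) (by omega)).symm
    rw [← hag (2 * n + 1) (by omega), this]
    exact hy.2 n

lemma isClosed_D2 : IsClosed D2 := by
  refine isClosed_of_Ag fun x hx => ⟨fun j => ?_, fun n => ?_⟩
  · obtain ⟨y, hy, hag⟩ := hx (2 * j + 1)
    rw [← hag (2 * j) (by omega)]
    exact hy.1 j
  · obtain ⟨y, hy, hag⟩ := hx (2 * n + 2)
    rw [← hag (2 * n + 1) (by omega)]
    exact hy.2 n

lemma isCompact_D1 : IsCompact D1 := by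
  have h : IsCompact (Set.pi univ fun n : ℕ => Set.Icc (0 : ℤ) (n + 1)) :=
    isCompact_univ_pi fun n => (Set.finite_Icc _ _).isCompact
  exact h.of_isClosed_subset isClosed_D1 fun x hx n _ => D1_bound hx n

lemma isCompact_D2 : IsCompact D2 := isCompact_D1.of_isClosed_subset isClosed_D2 D2_subset_D1

/-- `H1 C` meets `D1` only in the relative boundary of `C`. -/
lemma H1_subset_bd (C : Set G) : {x : D1 | x.1 ∈ H1 C} ⊆ bd D1 C := by
  rintro ⟨x, hxD⟩ ⟨hxC, hj, hn⟩
  refine ⟨hxC, ?_⟩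
  rintro ⟨m, hm⟩
  simp only at hm hj hn hxC
  obtain ⟨j, hmj, hX, m', hP⟩ := hj m
  have h0 : x (2 * j) = 0 := by
    rcases hxD.1 j with h | h
    · exact h
    · exfalso
      let v : G := fun i => if i < 2 * j then x i else 0
      have hvD : v ∈ D1 := by
        refine ⟨fun i => ?_, fun n => ?_⟩
        · by_cases hi : 2 * i < 2 * j
          · simp only [v, if_pos hi]
            exact hxD.1 i
          · left
            simp only [v, if_neg hi]
        · by_cases hi : 2 * n + 1 < 2 * j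
          · have : ∑ i ∈ Finset.range (n + 1), v (2 * i) =
                ∑ i ∈ Finset.range (n + 1), x (2 * i) :=
              Finset.sum_congr rfl fun i hi' => by
                rw [Finset.mem_range] at hi'
                simp only [v]
                rw [if_pos (by omega)]
            rw [this]
            simp only [v, if_pos hi]
            exact hxD.2 n
          · have hv0 : v (2 * n + 1) = 0 := by simp only [v, if_neg hi]
            rw [hv0]
            refine ⟨le_rfl, Finset.sum_nonneg fun i _ => ?_⟩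
            simp only [v]
            split_ifs
            · exact (D1_bound hxD _).1
            · exact le_rfl
      have hag : Ag (2 * j) v x := fun i hi => by simp only [v, if_pos hi]
      have := hX v (hm v hvD (hag.mono (by omega))) hag
      have hv0 : v (2 * j) = 0 := by simp [v]
      omega
  obtain ⟨n, hn1, hn2⟩ := hn (max m' j)
  have hn3 : m' ≤ n := le_of_max_le_left hn1
  have hn4 : j ≤ n := le_of_max_le_right hn1
  let v : G := x + dl j + ep n
  have hve : ∀ i, v (2 * i) = x (2 * i) + if i = j then 1 else 0 := by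
    intro i
    simp only [v, Pi.add_apply, dl, ep]
    rw [if_neg (by omega : ¬ 2 * i = 2 * n + 1)]
    by_cases h : i = j
    · simp [h]
    · rw [if_neg (by omega), if_neg h]
      simp
  have hvo : ∀ i, v (2 * i + 1) = x (2 * i + 1) + if i = n then 1 else 0 := by
    intro i
    simp only [v, Pi.add_apply, dl, ep]
    rw [if_neg (by omega : ¬ 2 * i + 1 = 2 * j)]
    by_cases h : i = n
    · simp [h]
    · rw [if_neg (by omega), if_neg h]
      simp
  have hvD : v ∈ D1 := by
    refine ⟨fun i => ?_, fun k => ?_⟩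
    · rw [hve]
      by_cases h : i = j
      · subst h
        right
        simp [h0]
      · rw [if_neg h]
        simpa using hxD.1 i
    · have hs : ∑ i ∈ Finset.range (k + 1), v (2 * i) =
          ∑ i ∈ Finset.range (k + 1), x (2 * i) + if j < k + 1 then 1 else 0 := by
        simp only [hve, Finset.sum_add_distrib, Finset.sum_ite_eq', Finset.mem_range]
      rw [hs, hvo]
      have := hxD.2 k
      by_cases h : k = n
      · rw [if_pos h, if_pos (by omega)]
        omega
      · rw [if_neg h]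
        split_ifs <;> omega
  have hag1 : Ag m v x := fun i hi => by
    simp only [v, Pi.add_apply, dl, ep]
    rw [if_neg (by omega), if_neg (by omega)]
    simp
  have hag2 : Ag m' v (x + dl j) := fun i hi => by
    simp only [v, Pi.add_apply, ep]
    rw [if_neg (by omega)]
    simp
  have := hP v (hm v hvD hag1) hag2
  apply hn2
  convert this using 1
  simp only [v]
  abel

lemma H1_meagre {C : Set G} (hC : IsClosed C) : IsMeagre {x : D1 | x.1 ∈ H1 C} :=
  (bd_meagre D1 hC).mono (H1_subset_bd C)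

lemma P_of_Ag {C : Set G} {j : ℕ} {x : G} (h : P C j x) : ∃ m, ∀ z, Ag m z x → P C j z := by
  obtain ⟨m, hm⟩ := h
  refine ⟨m, fun z hz => ⟨m, fun y hy hag => hm y hy fun i hi => ?_⟩⟩
  rw [hag i hi]
  simp only [Pi.add_apply]
  rw [hz i hi]

lemma isClosed_notP {C : Set G} (hC : IsClosed C) (j : ℕ) :
    IsClosed {x | x ∈ C ∧ ¬ P C j x} := by
  refine isClosed_of_Ag fun x hx => ⟨IsClosed.mem_of_Ag hC fun m => ?_, fun hP => ?_⟩
  · obtain ⟨y, hy, hag⟩ := hx m
    exact ⟨y, hy.1, hag⟩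
  · obtain ⟨m, hm⟩ := P_of_Ag hP
    obtain ⟨y, hy, hag⟩ := hx m
    exact hy.2 (hm y hag)

lemma add_dl_mem_D2 {x : G} (hx : x ∈ D2) {j : ℕ} (h : x (2 * j) = 0) : x + dl j ∈ D2 := by
  refine ⟨fun i => ?_, fun n => ?_⟩
  · simp only [Pi.add_apply, dl]
    by_cases hi : i = j
    · subst hi
      simp [h]
    · rw [if_neg (by omega)]
      simpa using hx.1 i
  · simp only [Pi.add_apply, dl]
    rw [if_neg (by omega), hx.2 n]
    simp

lemma sub_dl_mem_D2 {x : G} (hx : x ∈ D2) {j : ℕ} (h : x (2 * j) = 1) : x - dl j ∈ D2 := by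
  refine ⟨fun i => ?_, fun n => ?_⟩
  · simp only [Pi.sub_apply, dl]
    by_cases hi : i = j
    · subst hi
      simp [h]
    · rw [if_neg (by omega)]
      simpa using hx.1 i
  · simp only [Pi.sub_apply, dl]
    rw [if_neg (by omega), hx.2 n]
    simp

lemma exists_of_not_bd {D F : Set G} {x : D} (h : x ∉ bd D F) (hx : x.1 ∈ F) :
    ∃ m, ∀ v ∈ D, Ag m v x.1 → v ∈ F := by
  by_contra hh
  exact h ⟨hx, hh⟩

lemma H2_subset_bd (C : Set G) : {x : D2 | x.1 ∈ H2 C} ⊆
    (bd D2 C ∪ bd D2 (closure (H2 C ∩ D2))) ∪ ⋃ j, bd D2 {x | x ∈ C ∧ ¬ P C j x} := by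
  rintro ⟨x, hxD⟩ hxH
  have hxH' : x ∈ H2 C := hxH
  obtain ⟨hxC, hj, -⟩ := hxH'
  by_contra hcon
  obtain ⟨m0, hm0⟩ := exists_of_not_bd (D := D2) (F := C) (x := ⟨x, hxD⟩)
    (fun h => hcon (Or.inl (Or.inl h))) hxC
  obtain ⟨m1, hm1⟩ := exists_of_not_bd (D := D2) (F := closure (H2 C ∩ D2)) (x := ⟨x, hxD⟩)
    (fun h => hcon (Or.inl (Or.inr h))) (subset_closure ⟨hxH, hxD⟩)
  obtain ⟨j, hmj, hX, hP⟩ := hj (max m0 m1)
  have hj0 : m0 ≤ j := le_of_max_le_left hmj
  have hj1 : m1 ≤ j := le_of_max_le_right hmj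
  obtain ⟨m2, hm2⟩ := exists_of_not_bd (D := D2) (F := {x | x ∈ C ∧ ¬ P C j x}) (x := ⟨x, hxD⟩)
    (fun h => hcon (Or.inr (mem_iUnion.2 ⟨j, h⟩))) ⟨hxC, hP⟩
  simp only at hm0 hm1 hm2
  have h0 : x (2 * j) = 0 := by
    rcases hxD.1 j with h | h
    · exact h
    · exfalso
      have hag : Ag (2 * j) (x - dl j) x := fun i hi => by
        simp only [Pi.sub_apply, dl]
        rw [if_neg (by omega)]
        simp
      have := hX _ (hm0 _ (sub_dl_mem_D2 hxD h) (hag.mono (by omega))) hag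
      simp [dl] at this
  have hag : Ag m1 (x + dl j) x := fun i hi => by
    simp only [Pi.add_apply, dl]
    rw [if_neg (by omega)]
    simp
  obtain ⟨w, ⟨hwH, hwD⟩, hw⟩ :=
    mem_closure_iff_Ag.1 (hm1 _ (add_dl_mem_D2 hxD h0) hag) (max m2 (2 * j + 1))
  have hw1 : w (2 * j) = 1 := by
    rw [hw (2 * j) (lt_of_lt_of_le (by omega) (le_max_right _ _))]
    simp [dl, h0]
  have hag2 : Ag m2 (w - dl j) x := fun i hi => by
    simp only [Pi.sub_apply]
    rw [hw i (lt_of_lt_of_le hi (le_max_left _ _))]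
    simp
  obtain ⟨h1, h2⟩ := hm2 _ (sub_dl_mem_D2 hwD hw1) hag2
  exact h2 (hwH.2.2 j h1)

lemma H2_meagre {C : Set G} (hC : IsClosed C) : IsMeagre {x : D2 | x.1 ∈ H2 C} :=
  (((bd_meagre D2 hC).union (bd_meagre D2 isClosed_closure)).union
    (isMeagre_iUnion fun j => bd_meagre D2 (isClosed_notP hC j))).mono (H2_subset_bd C)

lemma XMin_of_Ag {C : Set G} {j : ℕ} {x z : G} (h : XMin C j x) (hz : Ag (2 * j + 1) z x) :
    XMin C j z := by
  intro y hy hag
  rw [hz (2 * j) (by omega)]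
  exact h y hy (hag.trans (hz.mono (by omega)))

lemma isClosed_Ag (m : ℕ) (x : G) : IsClosed {y | Ag m y x} :=
  isClosed_of_Ag fun z hz => by
    obtain ⟨y, hy, hag⟩ := hz m
    exact hag.symm.trans hy

lemma compl_subset_bd {C : Set G} (hC : IsCompact C) :
    {x : C | x.1 ∈ H1 C ∪ H2 C}ᶜ ⊆
      ((⋃ N, bd C {x | ∀ j, N ≤ j → ¬ XMin C j x}) ∪
        ⋃ N, bd C {x | ∀ n, N ≤ n → x + ep n ∈ C}) ∪ ⋃ j, bd C {y | y - dl j ∈ C} := by
  rintro ⟨x, hxC⟩ hx
  by_contra hcon
  apply hx
  have h1 : ∀ N, ∃ j, N ≤ j ∧ XMin C j x := by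
    intro N
    by_contra hh
    push Not at hh
    obtain ⟨m, hm⟩ := exists_of_not_bd (D := C) (F := {x | ∀ j, N ≤ j → ¬ XMin C j x})
      (x := ⟨x, hxC⟩) (fun h => hcon (Or.inl (Or.inl (mem_iUnion.2 ⟨N, h⟩)))) hh
    let j := max N m
    have hK : IsCompact (C ∩ {y | Ag (2 * j) y x}) := hC.inter_right (isClosed_Ag _ _)
    obtain ⟨y, ⟨hyC, hyx⟩, hy⟩ := hK.exists_isMinOn ⟨x, hxC, Ag.refl _ _⟩
      (continuous_apply (2 * j)).continuousOn
    have hmj : m ≤ j := le_max_right _ _
    refine hm y hyC (hyx.mono (by omega)) j (le_max_left _ _) ?_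
    intro z hz hag
    exact hy ⟨hz, hag.trans hyx⟩
  have h2 : ∀ N, ∃ n, N ≤ n ∧ x + ep n ∉ C := by
    intro N
    by_contra hh
    push Not at hh
    obtain ⟨m, hm⟩ := exists_of_not_bd (D := C) (F := {x | ∀ n, N ≤ n → x + ep n ∈ C})
      (x := ⟨x, hxC⟩) (fun h => hcon (Or.inl (Or.inr (mem_iUnion.2 ⟨N, h⟩)))) hh
    let n := max N m
    have hK : IsCompact (C ∩ {y | Ag m y x}) := hC.inter_right (isClosed_Ag _ _)
    obtain ⟨y, ⟨hyC, hyx⟩, hy⟩ := hK.exists_isMaxOn ⟨x, hxC, Ag.refl _ _⟩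
      (continuous_apply (2 * n + 1)).continuousOn
    have hmn : m ≤ n := le_max_right _ _
    have hmem := hm y hyC hyx n (le_max_left _ _)
    have hag : Ag m (y + ep n) x := fun i hi => by
      simp only [Pi.add_apply, ep]
      rw [if_neg (by omega), hyx i hi]
      simp
    have := hy (a := y + ep n) ⟨hmem, hag⟩
    simp [ep] at this
  have h3 : ∀ j, x - dl j ∈ C → P C j (x - dl j) := by
    intro j hj
    obtain ⟨m, hm⟩ := exists_of_not_bd (D := C) (F := {y | y - dl j ∈ C})
      (x := ⟨x, hxC⟩) (fun h => hcon (Or.inr (mem_iUnion.2 ⟨j, h⟩))) hj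
    refine ⟨m, fun y hy hag => hm y hy ?_⟩
    simpa using hag
  by_cases hP : ∀ N, ∃ j, N ≤ j ∧ XMin C j x ∧ P C j x
  · exact Or.inl ⟨hxC, hP, h2⟩
  · refine Or.inr ⟨hxC, fun N => ?_, h3⟩
    push Not at hP
    obtain ⟨N', hN'⟩ := hP
    obtain ⟨j, hj, hX⟩ := h1 (max N N')
    exact ⟨j, le_of_max_le_left hj, hX, hN' j (le_of_max_le_right hj) hX⟩

lemma not_meagre_H {C : Set G} (hC : IsCompact C) (hne : C.Nonempty) :
    ¬ IsMeagre {x : C | x.1 ∈ H1 C ∪ H2 C} := by
  intro hm
  have hcl := hC.isClosed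
  have h1 : IsMeagre {x : C | x.1 ∈ H1 C ∪ H2 C}ᶜ := by
    refine IsMeagre.mono (compl_subset_bd hC) (IsMeagre.union (IsMeagre.union ?_ ?_) ?_)
    · refine isMeagre_iUnion fun N => bd_meagre C (isClosed_of_Ag fun x hx j hj hX => ?_)
      obtain ⟨y, hy, hag⟩ := hx (2 * j + 1)
      exact hy j hj (XMin_of_Ag hX hag)
    · refine isMeagre_iUnion fun N => bd_meagre C ?_
      simp only [ofPred_forall]
      exact isClosed_iInter fun n => isClosed_iInter fun _ =>
        hcl.preimage (continuous_add_const (ep n))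
    · exact isMeagre_iUnion fun j => bd_meagre C (hcl.preimage (continuous_sub_right (dl j)))
  have h2 := hm.union h1
  rw [union_compl_self] at h2
  have : CompactSpace C := isCompact_iff_compactSpace.1 hC
  have : Nonempty C := hne.to_subtype
  have h3 : Dense (univᶜ : Set C) := dense_of_mem_residual h2
  simpa using h3.nonempty

/-- Translate of a set. -/
def sh (C : Set G) (g : G) : Set G := {y | y - g ∈ C}

lemma XMin_sh {C : Set G} {j : ℕ} {x : G} (g : G) : XMin (sh C g) j (x + g) ↔ XMin C j x := by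
  constructor
  · intro h y hy hag
    have := h (y + g) (by simpa [sh] using hy) fun i hi => by simp [hag i hi]
    simpa using this
  · intro h y hy hag
    have := h (y - g) hy fun i hi => by simp [hag i hi]
    simp only [Pi.sub_apply, Pi.add_apply] at this ⊢
    omega

lemma P_sh {C : Set G} {j : ℕ} {x : G} (g : G) : P (sh C g) j (x + g) ↔ P C j x := by
  constructor
  · rintro ⟨m, h⟩
    refine ⟨m, fun y hy hag => ?_⟩
    have := h (y + g) (by simpa [sh] using hy) fun i hi => by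
      simp only [Pi.add_apply, hag i hi]
      ring
    simp only [sh, mem_ofPred_eq] at this
    convert this using 1
    abel
  · rintro ⟨m, h⟩
    refine ⟨m, fun y hy hag => ?_⟩
    have := h (y - g) hy fun i hi => by
      simp only [Pi.sub_apply, Pi.add_apply, hag i hi]
      ring
    simp only [sh, mem_ofPred_eq]
    convert this using 1
    abel

lemma H1_sh {C : Set G} {x : G} (g : G) (h : x ∈ H1 C) : x + g ∈ H1 (sh C g) := by
  obtain ⟨h1, h2, h3⟩ := h
  refine ⟨by simpa [sh] using h1, fun N => ?_, fun N => ?_⟩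
  · obtain ⟨j, hj, hX, hP⟩ := h2 N
    exact ⟨j, hj, (XMin_sh g).2 hX, (P_sh g).2 hP⟩
  · obtain ⟨n, hn, hx⟩ := h3 N
    refine ⟨n, hn, fun hh => hx ?_⟩
    simp only [sh, mem_ofPred_eq] at hh
    convert hh using 1
    abel

lemma H2_sh {C : Set G} {x : G} (g : G) (h : x ∈ H2 C) : x + g ∈ H2 (sh C g) := by
  obtain ⟨h1, h2, h3⟩ := h
  refine ⟨by simpa [sh] using h1, fun N => ?_, fun j hj => ?_⟩
  · obtain ⟨j, hj, hX, hP⟩ := h2 N
    exact ⟨j, hj, (XMin_sh g).2 hX, fun hh => hP ((P_sh g).1 hh)⟩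
  · have e : x + g - dl j = x - dl j + g := by abel
    rw [e] at hj ⊢
    exact (P_sh g).2 (h3 j (by simpa [sh] using hj))

lemma isClosed_sh {C : Set G} (hC : IsClosed C) (g : G) : IsClosed (sh C g) :=
  hC.preimage (continuous_sub_right g)

end Pool.Agent.Lib.MP_056111_lc
end

-- part Pool.Agent.Lib.MP_056111_lc.Global
section

/-!
Global part of the construction: every nonempty compact subset `C` of `ℕ → ℤ` is coded by a
sequence `κ : ℕ → ℕ`, and the translates `H1 C + tr κ` (resp. `H2 C + tr κ`) are glued into one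
Borel set.  The translations are so far apart that a translate of `D1` meets only one of them.
-/

open Set Topology Filter

namespace Pool.Agent.Lib.MP_056111_lc

/-- The translation at coordinate `n` attached to the code value `k`. -/
def T (n k : ℕ) : ℤ := 4 * ((k : ℤ) + n + 1) ^ 2

lemma T_sep_aux {n k k' : ℕ} {y y' : ℤ} (h : |y - T n k| ≤ k) (h' : |y' - T n k'| ≤ k')
    (hy : |y - y'| ≤ n + 1) : ¬ k < k' := by
  intro hk
  rw [abs_le] at h h' hy
  unfold T at h h'
  have hk' : (k : ℤ) + 1 ≤ k' := by exact_mod_cast hk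
  have hk0 : (0 : ℤ) ≤ k := Int.natCast_nonneg k
  have hn0 : (0 : ℤ) ≤ n := Int.natCast_nonneg n
  nlinarith [h.1, h.2, h'.1, h'.2, hy.1, hy.2]

lemma T_sep {n k k' : ℕ} {y y' : ℤ} (h : |y - T n k| ≤ k) (h' : |y' - T n k'| ≤ k')
    (hy : |y - y'| ≤ n + 1) : k = k' := by
  have h1 := T_sep_aux h h' hy
  have h2 := T_sep_aux h' h (by rwa [abs_sub_comm])
  omega

open Classical in
/-- Decoding of the code value from the `n`-th coordinate. -/
noncomputable def dec (n : ℕ) (z : ℤ) : ℕ := if h : ∃ k : ℕ, |z - T n k| ≤ k then h.choose else 0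

lemma dec_eq {n k : ℕ} {z : ℤ} (h : |z - T n k| ≤ k) : dec n z = k := by
  have h' : ∃ k : ℕ, |z - T n k| ≤ k := ⟨k, h⟩
  unfold dec
  rw [dif_pos h']
  exact T_sep h'.choose_spec h (by simp; positivity)

noncomputable def kap (y : G) : ℕ → ℕ := fun n => dec n (y n)

def tr (κ : ℕ → ℕ) : G := fun n => T n (κ n)

def pt (κ : ℕ → ℕ) (k : ℕ) : G :=
  fun i => Equiv.intEquivNat.symm (Nat.unpair (κ (Nat.pair k i))).1

def Cs (κ : ℕ → ℕ) : Set G := closure (range (pt κ))

/-- The glued set. -/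
def glue (H : Set G → Set G) : Set G :=
  {y | (∀ n, |y n - T n (kap y n)| ≤ kap y n) ∧ y - tr (kap y) ∈ H (Cs (kap y))}

lemma exists_code {C : Set G} (hC : IsCompact C) (hne : C.Nonempty) :
    ∃ κ, Cs κ = C ∧ ∀ x ∈ C, ∀ n, |x n| ≤ κ n := by
  have : Nonempty C := hne.to_subtype
  obtain ⟨u, hu⟩ := TopologicalSpace.exists_dense_seq C
  have hb : ∀ n, ∃ w : ℕ, ∀ x ∈ C, |x n| ≤ w := by
    intro n
    obtain ⟨y, -, hy⟩ := hC.exists_isMaxOn (f := fun x : G => |x n|) hne
      ((continuous_apply n).abs).continuousOn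
    refine ⟨(|y n|).toNat, fun x hx => ?_⟩
    rw [Int.toNat_of_nonneg (abs_nonneg _)]
    exact hy hx
  choose w hw using hb
  let κ : ℕ → ℕ := fun n =>
    Nat.pair (Equiv.intEquivNat ((u (Nat.unpair n).1).1 (Nat.unpair n).2)) (w n)
  have hpt : ∀ k, pt κ k = (u k).1 := by
    intro k
    funext i
    simp [pt, κ]
  refine ⟨κ, ?_, fun x hx n => (hw n x hx).trans ?_⟩
  · apply Subset.antisymm
    · refine closure_minimal ?_ hC.isClosed
      rintro _ ⟨k, rfl⟩
      rw [hpt]
      exact (u k).2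
    · intro x hx
      have h1 : (⟨x, hx⟩ : C) ∈ closure (range u) := hu _
      have h2 := image_closure_subset_closure_image continuous_subtype_val ⟨_, h1, rfl⟩
      refine closure_mono ?_ h2
      rintro _ ⟨_, ⟨k, rfl⟩, rfl⟩
      exact ⟨k, hpt k⟩
  · exact_mod_cast Nat.right_le_pair _ _

lemma add_tr_mem_glue {H : Set G → Set G} {κ : ℕ → ℕ} {x : G} (hb : ∀ n, |x n| ≤ κ n)
    (hx : x ∈ H (Cs κ)) : x + tr κ ∈ glue H := by
  have hk : kap (x + tr κ) = κ := by
    funext n
    apply dec_eq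
    simpa [tr] using hb n
  refine ⟨fun n => ?_, ?_⟩
  · rw [hk]
    simpa [tr] using hb n
  · rw [hk]
    simpa using hx

lemma glue_meagre {H : Set G → Set G} {D : Set G} (hD : D ⊆ D1)
    (hsh : ∀ C x g, x ∈ H C → x + g ∈ H (sh C g))
    (hm : ∀ C, IsClosed C → IsMeagre {x : D | x.1 ∈ H C}) (g : G) :
    IsMeagre {x : D | x.1 ∈ (fun b => b + g) '' glue H} := by
  rcases Set.eq_empty_or_nonempty {x : D | x.1 ∈ (fun b => b + g) '' glue H} with h | h
  · rw [h]
    exact IsMeagre.empty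
  obtain ⟨x0, y0, hy0, hx0⟩ := h
  refine (hm (sh (Cs (kap y0)) (tr (kap y0) + g)) (isClosed_sh isClosed_closure _)).mono ?_
  rintro x ⟨y, hy, hx⟩
  have hk : kap y = kap y0 := by
    funext n
    refine T_sep (hy.1 n) (hy0.1 n) ?_
    have h1 := D1_bound (hD x.2) n
    have h2 := D1_bound (hD x0.2) n
    rw [← hx] at h1
    rw [← hx0] at h2
    simp only [Pi.add_apply] at h1 h2
    rw [abs_le]
    constructor <;> omega
  have := hsh _ _ (tr (kap y0) + g) hy.2
  rw [hk] at this
  simp only [mem_ofPred_eq]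
  rw [← hx]
  convert this using 1
  simp only
  abel

section Meas

variable {Y : Type} [MeasurableSpace Y]

lemma meas_Ag {f g : Y → G} (hf : Measurable f) (hg : Measurable g) (m : ℕ) :
    Measurable fun y => Ag m (f y) (g y) := by
  unfold Ag
  refine Measurable.forall fun i => Measurable.imp measurable_const ?_
  rw [← measurableSet_setOfPred]
  exact measurableSet_eq_fun ((measurable_pi_apply i).comp hf) ((measurable_pi_apply i).comp hg)

variable {p : ℕ → Y → G}

lemma meas_mem (hp : ∀ k, Measurable (p k)) {z : Y → G} (hz : Measurable z) :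
    Measurable fun y => z y ∈ closure (range fun k => p k y) := by
  have : (fun y => z y ∈ closure (range fun k => p k y)) =
      fun y => ∀ m, ∃ k, Ag m (p k y) (z y) := by
    funext y
    rw [mem_closure_iff_Ag]
    simp
  rw [this]
  exact Measurable.forall fun m => Measurable.exists fun k => meas_Ag (hp k) hz m

lemma meas_XMin (hp : ∀ k, Measurable (p k)) {z : Y → G} (hz : Measurable z) (j : ℕ) :
    Measurable fun y => XMin (closure (range fun k => p k y)) j (z y) := by
  have : (fun y => XMin (closure (range fun k => p k y)) j (z y)) =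
      fun y => ∀ k, Ag (2 * j) (p k y) (z y) → z y (2 * j) ≤ p k y (2 * j) := by
    funext y
    apply propext
    constructor
    · intro h k hag
      exact h _ (subset_closure ⟨k, rfl⟩) hag
    · intro h v hv hag
      obtain ⟨_, ⟨k, rfl⟩, hk⟩ := mem_closure_iff_Ag.1 hv (2 * j + 1)
      rw [← hk (2 * j) (by omega)]
      exact h k ((hk.mono (by omega)).trans hag)
  rw [this]
  refine Measurable.forall fun k => Measurable.imp (meas_Ag (hp k) hz _) ?_
  rw [← measurableSet_setOfPred]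
  exact measurableSet_le ((measurable_pi_apply _).comp hz) ((measurable_pi_apply _).comp (hp k))

lemma meas_P (hp : ∀ k, Measurable (p k)) {z : Y → G} (hz : Measurable z) (j : ℕ) :
    Measurable fun y => P (closure (range fun k => p k y)) j (z y) := by
  have : (fun y => P (closure (range fun k => p k y)) j (z y)) =
      fun y => ∃ m, ∀ k, Ag m (p k y) (z y + dl j) →
        p k y - dl j ∈ closure (range fun k => p k y) := by
    funext y
    apply propext
    constructor
    · rintro ⟨m, h⟩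
      exact ⟨m, fun k hag => h _ (subset_closure ⟨k, rfl⟩) hag⟩
    · rintro ⟨m, h⟩
      refine ⟨m, fun v hv hag => IsClosed.mem_of_Ag isClosed_closure fun n => ?_⟩
      obtain ⟨_, ⟨k, rfl⟩, hk⟩ := mem_closure_iff_Ag.1 hv (max m n)
      refine ⟨_, h k ((hk.mono (le_max_left _ _)).trans hag), fun i hi => ?_⟩
      have hki : p k y i = v i := hk i (lt_of_lt_of_le hi (le_max_right _ _))
      simp only [Pi.sub_apply]
      rw [hki]
  rw [this]
  exact Measurable.exists fun m => Measurable.forall fun k =>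
    Measurable.imp (meas_Ag (hp k) (hz.add_const _) _) (meas_mem hp ((hp k).sub_const _))

lemma meas_H1 (hp : ∀ k, Measurable (p k)) {z : Y → G} (hz : Measurable z) :
    Measurable fun y => z y ∈ H1 (closure (range fun k => p k y)) := by
  refine (meas_mem hp hz).and (Measurable.and ?_ ?_)
  · exact Measurable.forall fun N => Measurable.exists fun j =>
      measurable_const.and ((meas_XMin hp hz j).and (meas_P hp hz j))
  · exact Measurable.forall fun N => Measurable.exists fun n =>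
      measurable_const.and (meas_mem hp (hz.add_const _)).not

lemma meas_H2 (hp : ∀ k, Measurable (p k)) {z : Y → G} (hz : Measurable z) :
    Measurable fun y => z y ∈ H2 (closure (range fun k => p k y)) := by
  refine (meas_mem hp hz).and (Measurable.and ?_ ?_)
  · exact Measurable.forall fun N => Measurable.exists fun j =>
      measurable_const.and ((meas_XMin hp hz j).and (meas_P hp hz j).not)
  · exact Measurable.forall fun j =>
      (meas_mem hp (hz.sub_const _)).imp (meas_P hp (hz.sub_const _) j)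

end Meas

lemma meas_coord {β : Type} [MeasurableSpace β] (f : ℤ → β) (n : ℕ) :
    Measurable fun y : G => f (y n) :=
  (measurable_of_countable f).comp (measurable_pi_apply n)

lemma meas_pt (k : ℕ) : Measurable fun y : G => pt (kap y) k :=
  measurable_pi_lambda _ fun i =>
    meas_coord (fun z => Equiv.intEquivNat.symm (Nat.unpair (dec (Nat.pair k i) z)).1) _

lemma meas_sub_tr : Measurable fun y : G => y - tr (kap y) :=
  measurable_pi_lambda _ fun n => meas_coord (fun z => z - T n (dec n z)) n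

lemma meas_bound : Measurable fun y : G => ∀ n, |y n - T n (kap y n)| ≤ kap y n :=
  Measurable.forall fun n => meas_coord (fun z => |z - T n (dec n z)| ≤ dec n z) n

lemma meas_glue_H1 : MeasurableSet (glue H1) :=
  measurableSet_setOfPred.2 (meas_bound.and (meas_H1 meas_pt meas_sub_tr))

lemma meas_glue_H2 : MeasurableSet (glue H2) :=
  measurableSet_setOfPred.2 (meas_bound.and (meas_H2 meas_pt meas_sub_tr))

lemma borel_glue_H1 : @MeasurableSet G (borel G) (glue H1) := by
  have := meas_glue_H1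
  rwa [BorelSpace.measurable_eq (α := G)] at this

lemma borel_glue_H2 : @MeasurableSet G (borel G) (glue H2) := by
  have := meas_glue_H2
  rwa [BorelSpace.measurable_eq (α := G)] at this

lemma union_not_meagre {B C : Set G} (hB : glue H1 ∪ glue H2 ⊆ B) (hC : IsCompact C)
    (hne : C.Nonempty) : ∃ g : G, ¬ IsMeagre {x : C | x.1 ∈ (fun b => b + g) '' B} := by
  obtain ⟨κ, hκ, hb⟩ := exists_code hC hne
  refine ⟨-tr κ, fun h => not_meagre_H hC hne (h.mono ?_)⟩
  rintro x hx
  refine ⟨x.1 + tr κ, hB ?_, by simp⟩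
  rcases hx with hx | hx
  · exact Or.inl (add_tr_mem_glue (hb _ x.2) (by rwa [hκ]))
  · exact Or.inr (add_tr_mem_glue (hb _ x.2) (by rwa [hκ]))

end Pool.Agent.Lib.MP_056111_lc
end
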